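import Pool.Agent.Lib.P7a3e68.Final

/-!
# The algebraic Sato-Tate statement with `G_{l,K,1}` the Zariski closure of `Γ¹_{l,K}` fails

Let `F = K = ℚ` and let `A = E_a` be the elliptic curve `y² = x³ + a x`, `a ∈ ℚ` nonzero, with
complex multiplication by `i` defined over `ℚ(i)` but not over `ℚ`.

* At `l = 2`: an element of `Γ_2` of determinant one comes from an automorphism which fixes
  `i` (this reflects `i ∈ ℚ(μ_{2^∞})`), so `Γ¹_2` commutes with the complex multiplication.
  In the proof this is the fact that the quaternion algebra `(-1, -1)` does not split over the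
  field of `2`-adic numbers.
* At `l = 3`: `Γ¹_3` contains an element which comes from an automorphism moving `i`, and it
  spans the whole matrix algebra.

So no closed `ℚ`-subscheme of the space of `2 × 2` matrices can have the Zariski closures of
both `Γ¹_2` and `Γ¹_3` as base changes.
-/

namespace Pool.Agent.Results.MP_7a3e68_ag.ClosureCounterexample

open Pool.Agent.Lib.P7a3e68

/-- For `E_a : y² = x³ + a x` over `ℚ` the rational Tate modules at `2` and `3` are
two-dimensional, and whatever two-dimensional `ℚ`-vector space `H` (such as the rational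
homology of `E_a(ℂ)`) one takes, there is no ideal `I` of `ℚ[x_ij]` whose extensions
to `ℚ_2[x_ij]` and to `ℚ_3[x_ij]` are the vanishing ideals of `Γ¹_2` and `Γ¹_3`, whatever the
identifications `ℚ_l ⊗ H ≅ V_l` and the nonzero alternating forms on `V_l` used (`l = 2, 3`). -/
theorem result (a : ℚ) (ha : a ≠ 0) (Qb : Type*) [Field Qb] [DecidableEq Qb] [Algebra ℚ Qb]
    [IsAlgClosure ℚ Qb] :
    Module.finrank ℚ_[2] (VTate Qb (curve a) 2) = 2 ∧
    Module.finrank ℚ_[3] (VTate Qb (curve a) 3) = 2 ∧
    ∀ (H : Type*) [AddCommGroup H] [Module ℚ H] (b : Module.Basis (Fin 2) ℚ H)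
      (I : Ideal (MvPolynomial (Fin 2 × Fin 2) ℚ)),
      ¬ (HasClosure Qb (curve a) 2 b I ∧ HasClosure Qb (curve a) 3 b I) := by
  refine ⟨finrank_two a ha Qb, finrank_three a ha Qb, ?_⟩
  rintro H _ _ b I ⟨⟨comp₂, ψ₂, h₂, h₂0, hI₂⟩, ⟨comp₃, ψ₃, h₃, h₃0, hI₃⟩⟩
  exact main a Qb ha _ _ ψ₂ ψ₃ h₂ h₂0 h₃ h₃0 I hI₂ hI₃

end Pool.Agent.Results.MP_7a3e68_ag.ClosureCounterexample
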